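import Pool.Agent.Lib_helper52.YG.Defs

set_option autoImplicit false

namespace Pool.Agent.YG

open MeasureTheory ENNReal Set Filter Topology Pool.Agent.EPS

theorem s1_al {c : ℝ} (h0 : 0 < c) (h1 : c < 1) : al c ^ 2 * (1 - c) = c := by
  have h2 : 0 < 1 - c := by linarith
  unfold al
  rw [Real.sq_sqrt (div_pos h0 h2).le, div_mul_cancel₀ _ h2.ne']

/-- the quadratic inequality -/
theorem quad {c1 c2 c3 : ℝ} (h : Wt c1 c2 c3) (s1 s2 s3 : ℝ) :
    qf c1 c2 (al c1 * s1 + al c3 * s3) (al c2 * s2 + al c3 * s3) ≤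
      c1 * s1 ^ 2 + c2 * s2 ^ 2 + c3 * s3 ^ 2 := by
  have e1 := s1_al h.a1 h.b1
  have e2 := s1_al h.a2 h.b2
  have e3 := s1_al h.a3 h.b3
  have hs : c3 = 2 - c1 - c2 := by linarith [h.sum]
  have key : c1 * s1 ^ 2 + c2 * s2 ^ 2 + c3 * s3 ^ 2 -
      qf c1 c2 (al c1 * s1 + al c3 * s3) (al c2 * s2 + al c3 * s3) =
      (al c1 * (1 - c1) * s1 + al c2 * (1 - c2) * s2 - al c3 * (1 - c3) * s3) ^ 2 := by
    unfold qf
    generalize al c1 = A1 at *
    generalize al c2 = A2 at *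
    generalize al c3 = A3 at *
    subst hs
    linear_combination (-s1 ^ 2) * e1 - s2 ^ 2 * e2 - s3 ^ 2 * e3
  have := sq_nonneg (al c1 * (1 - c1) * s1 + al c2 * (1 - c2) * s2 - al c3 * (1 - c3) * s3)
  linarith

end Pool.Agent.YG
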